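import Mathlib

set_option autoImplicit false

namespace Pool.Agent.Results.MP_634bde_lc.NotFinite

open Function

universe u

/-- Terms over variables, implication and composition. -/
inductive Tm
  | var : ℕ → Tm
  | imp : Tm → Tm → Tm
  | comp : Tm → Tm → Tm

/-- Value of a term in the full implication semigroup on the subsets of `T`. -/
def Tm.ev {X : Type u} (T : Set (X × X)) (v : ℕ → Set (X × X)) : Tm → Set (X × X)
  | var n => v n
  | imp s t => (T \ s.ev T v) ∪ t.ev T v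
  | comp s t => {p | ∃ y, (p.1, y) ∈ s.ev T v ∧ (y, p.2) ∈ t.ev T v}

/-- The equation holds in the full implication semigroup of every transitive relation. -/
def Valid (s t : Tm) : Prop :=
  ∀ (X : Type u) (T : Set (X × X)), (∀ x y z, (x, y) ∈ T → (y, z) ∈ T → (x, z) ∈ T) →
    ∀ v : ℕ → Set (X × X), (∀ n, v n ⊆ T) → s.ev T v = t.ev T v

/-- Arbitrary algebras with two binary operations. -/
structure Alg where
  A : Type
  imp : A → A → A
  comp : A → A → A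

def Tm.val (M : Alg) (v : ℕ → M.A) : Tm → M.A
  | var n => v n
  | imp s t => M.imp (s.val M v) (t.val M v)
  | comp s t => M.comp (s.val M v) (t.val M v)

def Holds (M : Alg) (s t : Tm) : Prop := ∀ v : ℕ → M.A, s.val M v = t.val M v

def Tm.bd : Tm → ℕ
  | var n => n + 1
  | imp s t => max s.bd t.bd
  | comp s t => max s.bd t.bd

section sem
variable {X : Type u} {T : Set (X × X)} {v : ℕ → Set (X × X)}

theorem ev_sub (hT : ∀ x y z, (x, y) ∈ T → (y, z) ∈ T → (x, z) ∈ T) (hv : ∀ n, v n ⊆ T) :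
    ∀ s : Tm, s.ev T v ⊆ T
  | .var n => hv n
  | .imp _ t => Set.union_subset Set.diff_subset (ev_sub hT hv t)
  | .comp s t => fun _ ⟨_, h1, h2⟩ => hT _ _ _ (ev_sub hT hv s h1) (ev_sub hT hv t h2)

def dd (z : Tm) (L : List (Tm × Tm)) : Tm := L.foldr (fun r d => (r.1.imp r.2).imp d) z

def un (a b : Tm) : Tm := (a.imp b).imp b

theorem dd_mem (z : Tm) {L : List (Tm × Tm)} {r : Tm × Tm} (hr : r ∈ L) {p : X × X} (hp : p ∈ T)
    (h1 : p ∈ r.1.ev T v) (h2 : p ∉ (dd z L).ev T v) : p ∈ r.2.ev T v := by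
  induction L with
  | nil => cases hr
  | cons a L ih =>
    simp only [dd, List.foldr_cons, Tm.ev, Set.mem_union, Set.mem_diff, not_or] at h2
    rcases List.mem_cons.1 hr with rfl | hr
    · tauto
    · exact ih hr h2.2

theorem dd_z (z : Tm) {L : List (Tm × Tm)} {p : X × X} (h2 : p ∉ (dd z L).ev T v) :
    p ∉ z.ev T v := by
  induction L with
  | nil => exact h2
  | cons a L ih => exact ih fun h => h2 (Or.inr h)

theorem un_mem (z : Tm) {L : List Tm} {p : X × X} (h : p ∈ (L.foldr un z).ev T v)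
    (hz : p ∉ z.ev T v) : ∃ r ∈ L, p ∈ r.ev T v := by
  induction L with
  | nil => exact (hz h).elim
  | cons a L ih =>
    simp only [un, List.foldr_cons, Tm.ev, Set.mem_union, Set.mem_diff, not_or] at h
    by_cases ha : p ∈ a.ev T v
    · exact ⟨a, List.mem_cons_self, ha⟩
    · obtain ⟨r, h1, h2⟩ := ih (by tauto)
      exact ⟨r, List.mem_cons_of_mem _ h1, h2⟩

end sem

section alg
variable (l : ℕ)

abbrev S := Fin (2 * l)

abbrev Big := {L : Finset (S l) // l ≤ L.card}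

inductive At
  | z | c
  | a (b : Bool) | g (b : Bool) | w (b : Bool) (s : S l) | f (s t : S l) | e (b : Bool) (L : Big l)
  deriving Countable

variable {l}

inductive C : At l → At l → At l → Prop
  | ge (L) : C (.g false) (.e false L) (.a false)
  | eg (L) : C (.e true L) (.g true) (.a true)
  | gf (s t) : C (.g false) (.f s t) (.w true t)
  | fg (s t) : C (.f s t) (.g true) (.w false s)
  | gw (s) : C (.g false) (.w false s) .c
  | wg (s) : C (.w true s) (.g true) .c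
  | aa : C (.a false) (.a true) .c
  | ae (L t) : t ∈ L.1 → C (.a false) (.e true L) (.w true t)
  | ea (L s) : s ∈ L.1 → C (.e false L) (.a true) (.w false s)
  | ee (L L' s t) : s ∈ L.1 → t ∈ L'.1 → s ≠ t → C (.e false L) (.e true L') (.f s t)

def MA (l : ℕ) : Alg where
  A := Set {d : At l // d ≠ .z}
  imp x y := xᶜ ∪ y
  comp x y := {d | ∃ p ∈ x, ∃ q ∈ y, C p.1 q.1 d.1}

variable {K : Type} (κ : Bool → Big l → K)

def Ok (σ : S l → Option (Bool × Big l)) : Prop :=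
  (∀ s b L, σ s = some (b, L) → s ∈ L.1) ∧ ∀ b L, ∃ s L', σ s = some (b, L') ∧ κ b L' = κ b L

inductive Pt
  | x (b : Bool) | q (b : Bool) (s : S l) | p (σ : {σ // Ok κ σ})

variable {κ}

inductive Lab : Pt κ → Pt κ → At l → Prop
  | c : Lab (.x false) (.x true) .c
  | g0 (s) : Lab (.x false) (.q false s) (.g false)
  | g1 (s) : Lab (.q true s) (.x true) (.g true)
  | w0 (s) : Lab (.q false s) (.x true) (.w false s)
  | w1 (s) : Lab (.x false) (.q true s) (.w true s)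
  | a0 (σ) : Lab (.x false) (.p σ) (.a false)
  | a1 (σ) : Lab (.p σ) (.x true) (.a true)
  | f (s t) : Lab (.q false s) (.q true t) (.f s t)
  | e0 (s σ L) : σ.1 s = some (false, L) → Lab (.q false s) (.p σ) (.e false L)
  | e1 (s σ L) : σ.1 s = some (true, L) → Lab (.p σ) (.q true s) (.e true L)

theorem Lab.uniq {x y : Pt κ} {d d' : At l} (h : Lab x y d) (h' : Lab x y d') : d = d' := by
  cases h <;> cases h' <;> simp_all

theorem Lab.ne {x y : Pt κ} {d : At l} (h : Lab x y d) : d ≠ .z := by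
  cases h <;> simp

theorem Lab.tr {x y z : Pt κ} {d d' : At l} (h : Lab x y d) (h' : Lab y z d') :
    ∃ d'', Lab x z d'' ∧ C d d' d'' := by
  cases h <;> cases h'
  all_goals first
    | exact ⟨_, .w1 _, .ae _ _ (Subtype.prop (p := Ok κ) _ |>.1 _ _ _ ‹_›)⟩
    | exact ⟨_, .w0 _, .ea _ _ (Subtype.prop (p := Ok κ) _ |>.1 _ _ _ ‹_›)⟩
    | exact ⟨_, .c, by constructor⟩
    | exact ⟨_, .w0 _, by constructor⟩
    | exact ⟨_, .w1 _, by constructor⟩
    | exact ⟨_, .a0 _, by constructor⟩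
    | exact ⟨_, .a1 _, by constructor⟩
    | skip
  rename_i s σ L h t L' h'
  exact ⟨_, .f _ _, .ee _ _ _ _ (σ.2.1 _ _ _ h) (σ.2.1 _ _ _ h') (by rintro rfl; simp_all)⟩

theorem ex [Fintype K] (hl : 2 * Fintype.card K + 2 ≤ l) {s t : S l} (hst : s ≠ t) {L L' : Big l}
    (hs : s ∈ L.1) (ht : t ∈ L'.1) :
    ∃ σ : {σ // Ok κ σ}, σ.1 s = some (false, L) ∧ σ.1 t = some (true, L') := by
  classical
  have : Nonempty (Big l) := ⟨L⟩
  let rep : Bool × K → Big l := fun d => invFun (κ d.1) d.2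
  obtain ⟨φ, h1, h2⟩ := (Finset.all_card_le_biUnion_card_iff_exists_injective
    fun d : Bool × K => (rep d).1 \ {s, t}).1 fun U => by
      rcases U.eq_empty_or_nonempty with rfl | ⟨d, hd⟩
      · simp
      have h1 := Finset.card_le_card (Finset.subset_biUnion_of_mem
        (fun d : Bool × K => (rep d).1 \ {s, t}) hd)
      have h2 := Finset.le_card_sdiff {s, t} (rep d).1
      have h3 := Finset.card_le_univ U
      have h4 := (rep d).2
      rw [Finset.card_pair hst] at h2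
      simp only [Fintype.card_prod, Fintype.card_bool] at h3
      omega
  simp only [Finset.mem_sdiff, Finset.mem_insert, Finset.mem_singleton, not_or] at h2
  refine ⟨⟨update (update (extend φ (fun d => some (d.1, rep d)) fun _ => none) s
    (some (false, L))) t (some (true, L')), fun y b M h => ?_, fun b M => ⟨φ (b, κ b M),
      rep (b, κ b M), ?_, invFun_eq ⟨M, rfl⟩⟩⟩, by simp [hst], by simp⟩
  · by_cases h3 : y = t
    · subst h3; simp_all
    by_cases h4 : y = s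
    · subst h4; simp_all
    rw [update_of_ne h3, update_of_ne h4] at h
    by_cases h5 : ∃ d, φ d = y
    · obtain ⟨d, rfl⟩ := h5
      rw [h1.extend_apply] at h
      cases h
      exact (h2 d).1
    · rw [extend_apply' _ _ _ h5] at h
      cases h
  · rw [update_of_ne (h2 _).2.2, update_of_ne (h2 _).2.1, h1.extend_apply]

theorem other (hl : 2 ≤ l) (L : Big l) (s : S l) : ∃ t ∈ L.1, t ≠ s :=
  Finset.exists_mem_ne (by have := L.2; omega) s

def Sim (κ : Bool → Big l → K) (d' d : At l) : Prop :=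
  d' = d ∨ ∃ b L L', d = .e b L ∧ d' = .e b L' ∧ κ b L' = κ b L

theorem Lab.wit [Fintype K] (hl : 2 * Fintype.card K + 2 ≤ l) {x y : Pt κ} {d d' d'' : At l}
    (h : Lab x y d'') (h' : C d d' d'') :
    ∃ m p q, Lab x m p ∧ Lab m y q ∧ Sim κ p d ∧ Sim κ q d' := by
  have h2 : 2 ≤ l := by omega
  let U : Big l := ⟨Finset.univ, by simp; omega⟩
  cases h' <;> cases h
  · rename_i L σ
    obtain ⟨s, L', h1, h3⟩ := σ.2.2 false L
    exact ⟨_, _, _, .g0 s, .e0 s σ L' h1, .inl rfl, .inr ⟨_, _, _, rfl, rfl, h3⟩⟩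
  · rename_i L σ
    obtain ⟨s, L', h1, h3⟩ := σ.2.2 true L
    exact ⟨_, _, _, .e1 s σ L' h1, .g1 s, .inr ⟨_, _, _, rfl, rfl, h3⟩, .inl rfl⟩
  · exact ⟨_, _, _, .g0 _, .f _ _, .inl rfl, .inl rfl⟩
  · exact ⟨_, _, _, .f _ _, .g1 _, .inl rfl, .inl rfl⟩
  · exact ⟨_, _, _, .g0 _, .w0 _, .inl rfl, .inl rfl⟩
  · exact ⟨_, _, _, .w1 _, .g1 _, .inl rfl, .inl rfl⟩
  · obtain ⟨s, h1, -⟩ := other h2 U ⟨0, by omega⟩
    obtain ⟨t, h3, h4⟩ := other h2 U s
    obtain ⟨σ, -⟩ := ex (κ := κ) hl h4 h3 h1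
    exact ⟨_, _, _, .a0 σ, .a1 σ, .inl rfl, .inl rfl⟩
  · rename_i L t h1
    obtain ⟨s, h3, h4⟩ := other h2 U t
    obtain ⟨σ, -, h5⟩ := ex (κ := κ) hl h4 h3 h1
    exact ⟨_, _, _, .a0 σ, .e1 _ σ _ h5, .inl rfl, .inl rfl⟩
  · rename_i L s h1
    obtain ⟨t, h3, h4⟩ := other h2 U s
    obtain ⟨σ, h5, -⟩ := ex (κ := κ) hl h4.symm h1 h3
    exact ⟨_, _, _, .e0 _ σ _ h5, .a1 σ, .inl rfl, .inl rfl⟩
  · rename_i L L' s t h1 h3 h4
    obtain ⟨σ, h5, h6⟩ := ex (κ := κ) hl h4 h1 h3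
    exact ⟨_, _, _, .e0 _ σ _ h5, .e1 _ σ _ h6, .inl rfl, .inl rfl⟩

theorem Lab.surj [Fintype K] (hl : 2 * Fintype.card K + 2 ≤ l) {d : At l} (hd : d ≠ .z) :
    ∃ x y : Pt κ, Lab x y d := by
  have h2 : 2 ≤ l := by omega
  let U : Big l := ⟨Finset.univ, by simp; omega⟩
  let o : S l := ⟨0, by omega⟩
  rcases d with _ | _ | ⟨_ | _⟩ | ⟨_ | _⟩ | ⟨_ | _, s⟩ | ⟨s, t⟩ | ⟨_ | _, L⟩
  · exact (hd rfl).elim
  · exact ⟨_, _, .c⟩
  · obtain ⟨m, p, q, h, -, rfl | ⟨_, _, _, ⟨⟩, -⟩, -⟩ := Lab.wit (κ := κ) hl .c .aa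
    exact ⟨_, _, h⟩
  · obtain ⟨m, p, q, -, h, -, rfl | ⟨_, _, _, ⟨⟩, -⟩⟩ := Lab.wit (κ := κ) hl .c .aa
    exact ⟨_, _, h⟩
  · exact ⟨_, _, .g0 o⟩
  · exact ⟨_, _, .g1 o⟩
  · exact ⟨_, _, .w0 s⟩
  · exact ⟨_, _, .w1 s⟩
  · exact ⟨_, _, .f s t⟩
  · obtain ⟨s, h1, -⟩ := other h2 L o
    obtain ⟨t, h3, h4⟩ := other h2 U s
    obtain ⟨σ, h5, -⟩ := ex (κ := κ) hl h4.symm h1 h3
    exact ⟨_, _, .e0 _ σ _ h5⟩
  · obtain ⟨s, h1, -⟩ := other h2 L o
    obtain ⟨t, h3, h4⟩ := other h2 U s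
    obtain ⟨σ, -, h5⟩ := ex (κ := κ) hl h4 h3 h1
    exact ⟨_, _, .e1 _ σ _ h5⟩

theorem holds {N : ℕ} (hl : 2 * Fintype.card (Fin N → Prop) + 2 ≤ l) {s t : Tm} (hs : s.bd ≤ N)
    (ht : t.bd ≤ N) (h : Valid.{u} s t) : Holds (MA l) s t := by
  intro (v : ℕ → Set {d : At l // d ≠ .z})
  let κ : Bool → Big l → Fin N → Prop := fun b L i => ⟨.e b L, nofun⟩ ∈ v i
  let H : Set {d : At l // d ≠ .z} → Set (ULift.{u} (Pt κ) × ULift.{u} (Pt κ)) :=
    fun x => {p | ∃ d ∈ x, Lab p.1.down p.2.down d.1}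
  have key : ∀ r : Tm, r.bd ≤ N → (∀ d d' : {d : At l // d ≠ .z}, Sim κ d'.1 d.1 →
      ((d' ∈ show Set _ from r.val (MA l) v) ↔ d ∈ show Set _ from r.val (MA l) v)) ∧
      H (r.val (MA l) v) = r.ev (H Set.univ) fun n => H (v n) := by
    intro r
    induction r with
    | var n =>
      refine fun hn => ⟨?_, rfl⟩
      rintro ⟨d, _⟩ ⟨d', _⟩ (rfl | ⟨b, L, L', rfl, rfl, h⟩)
      · rfl
      · exact iff_of_eq (congrFun h ⟨n, hn⟩)
    | imp r r' ih ih' =>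
      intro hn
      obtain ⟨a1, a2⟩ := ih (le_of_max_le_left hn)
      obtain ⟨b1, b2⟩ := ih' (le_of_max_le_right hn)
      refine ⟨fun d d' h => or_congr (not_congr (a1 d d' h)) (b1 d d' h), ?_⟩
      simp only [Tm.ev, ← a2, ← b2]
      ext p
      constructor
      · rintro ⟨d, h1 | h1, h2⟩
        · refine .inl ⟨⟨d, trivial, h2⟩, fun ⟨d', h3, h4⟩ => h1 ?_⟩
          rwa [Subtype.ext (h2.uniq h4)]
        · exact .inr ⟨d, h1, h2⟩
      · rintro (⟨⟨d, -, h1⟩, h2⟩ | ⟨d, h1, h2⟩)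
        · exact ⟨d, .inl fun h => h2 ⟨d, h, h1⟩, h1⟩
        · exact ⟨d, .inr h1, h2⟩
    | comp r r' ih ih' =>
      intro hn
      obtain ⟨a1, a2⟩ := ih (le_of_max_le_left hn)
      obtain ⟨b1, b2⟩ := ih' (le_of_max_le_right hn)
      constructor
      · rintro ⟨d, _⟩ ⟨d', _⟩ (rfl | ⟨b, L, L', rfl, rfl, h⟩)
        · rfl
        · constructor <;> rintro ⟨⟨_, _⟩, -, ⟨_, _⟩, -, ⟨⟩⟩
      simp only [Tm.ev, ← a2, ← b2]
      ext p
      constructor
      · rintro ⟨d, ⟨x, h1, y, h2, h3⟩, h4⟩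
        obtain ⟨m, x', y', h5, h6, h7, h8⟩ := h4.wit hl h3
        exact ⟨⟨m⟩, ⟨⟨x', h5.ne⟩, (a1 _ _ h7).2 h1, h5⟩, ⟨y', h6.ne⟩, (b1 _ _ h8).2 h2, h6⟩
      · rintro ⟨m, ⟨x, h1, h2⟩, y, h3, h4⟩
        obtain ⟨d, h5, h6⟩ := h2.tr h4
        exact ⟨⟨d, h5.ne⟩, ⟨x, h1, y, h3, h6⟩, h5⟩
  have h1 := h _ (H Set.univ) (fun x y z ⟨_, _, h1⟩ ⟨_, _, h2⟩ =>
    let ⟨d, h3, _⟩ := h1.tr h2; ⟨⟨d, h3.ne⟩, trivial, h3⟩) (fun n => H (v n))
    fun n p ⟨d, _, h⟩ => ⟨d, trivial, h⟩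
  rw [← (key s hs).2, ← (key t ht).2] at h1
  have inj : ∀ x y, H x = H y → x ⊆ y := by
    intro x y h d hd
    obtain ⟨p, q, h2⟩ := Lab.surj (κ := κ) hl d.2
    obtain ⟨d', h3, h4⟩ : (⟨p⟩, ⟨q⟩) ∈ H y := h ▸ ⟨d, hd, h2⟩
    rwa [Subtype.ext (h2.uniq h4)]
  exact (inj _ _ h1).antisymm (inj _ _ h1.symm)

variable (e : At l → ℕ)

def tv (d : At l) : Tm := .var (e d)

noncomputable def rule :
    (Bool × Big l) ⊕ (Big l × Big l) ⊕ (Bool × Bool × S l × S l) → Tm × Tm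
  | .inl (false, L) => (tv e (.a false), (tv e (.g false)).comp (tv e (.e false L)))
  | .inl (true, L) => (tv e (.a true), (tv e (.e true L)).comp (tv e (.g true)))
  | .inr (.inl (L, L')) => ((tv e (.e false L)).comp (tv e (.e true L')),
      ((((L.1 ×ˢ L'.1).filter fun p => p.1 ≠ p.2).toList).map fun p => tv e (.f p.1 p.2)).foldr
        un (tv e .z))
  | .inr (.inr (false, false, s, t)) => ((tv e (.f s t)).comp (tv e (.g true)), tv e (.w false s))
  | .inr (.inr (false, true, s, t)) => ((tv e (.g false)).comp (tv e (.f s t)), tv e (.w true t))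
  | .inr (.inr (true, b, s, t)) =>
      (tv e (.w b s), if s = t then tv e (.w b s) else (tv e (.w b t)).imp (tv e .z))

def top : Tm := (tv e .z).imp (tv e .z)

def eqn (d : Tm) : Tm := ((tv e (.a false)).comp (tv e (.a true))).imp
  (un ((top e).comp d) (un (d.comp (top e)) ((top e).comp (d.comp (top e)))))

theorem valid {R : List (Tm × Tm)} (hR : ∀ i, rule e i ∈ R) :
    Valid.{u} (eqn e (dd (tv e .z) R)) (top e) := by
  classical
  intro X T hT v hv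
  have sub := ev_sub hT hv
  have tp : (top e).ev T v = T := Set.diff_union_of_subset (sub _)
  rw [tp]
  refine (sub _).antisymm fun ⟨x, w⟩ hp => ?_
  by_contra hn
  simp only [Tm.ev, eqn, un, tp, Set.mem_union, Set.mem_diff, Set.mem_setOf_eq, hp, true_and,
    not_or, not_not] at hn
  obtain ⟨⟨p, h1, h2⟩, hn⟩ := hn
  have n1 : ∀ y, (x, y) ∈ T → (y, w) ∉ (dd (tv e .z) R).ev T v :=
    fun y a b => hn.1 ⟨⟨y, a, b⟩, hn.2.1, hn.2.2⟩
  have n2 : ∀ y, (y, w) ∈ T → (x, y) ∉ (dd (tv e .z) R).ev T v :=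
    fun y a b => hn.2.1 ⟨⟨y, b, a⟩, hn.2.2⟩
  have n3 : ∀ y y', (x, y) ∈ T → (y', w) ∈ T → (y, y') ∉ (dd (tv e .z) R).ev T v :=
    fun y y' a b c => hn.2.2 ⟨y, a, y', c, b⟩
  choose q q1 q2 using fun L => dd_mem _ (hR (.inl (false, L))) (sub _ h1) h1 (n2 _ (sub _ h2))
  choose r r1 r2 using fun L => dd_mem _ (hR (.inl (true, L))) (sub _ h2) h2 (n1 _ (sub _ h1))
  simp only at q1 q2 r1 r2
  have key : ∀ L L', ∃ s ∈ L.1, ∃ t ∈ L'.1, s ≠ t ∧ (q L, w) ∈ (tv e (.w false s)).ev T v ∧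
      (x, r L') ∈ (tv e (.w true t)).ev T v := by
    intro L L'
    have a := n3 _ _ (sub _ (q1 L)) (sub _ (r2 L'))
    have b := hT _ _ _ (sub _ (q2 L)) (sub _ (r1 L'))
    obtain ⟨_, h3, h4⟩ := un_mem _ (dd_mem _ (hR (.inr (.inl (L, L')))) b ⟨p, q2 L, r1 L'⟩ a)
      (dd_z _ a)
    simp only [List.mem_map, Finset.mem_toList, Finset.mem_filter, Finset.mem_product] at h3
    obtain ⟨⟨s, t⟩, ⟨⟨h5, h6⟩, h7⟩, rfl⟩ := h3
    exact ⟨s, h5, t, h6, h7, dd_mem _ (hR (.inr (.inr (false, false, s, t))))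
      (hT _ _ _ b (sub _ (r2 L'))) ⟨_, h4, r2 L'⟩ (n1 _ (sub _ (q1 L))),
      dd_mem _ (hR (.inr (.inr (false, true, s, t)))) (hT _ _ _ (sub _ (q1 L)) b)
        ⟨_, q1 L, h4⟩ (n2 _ (sub _ (r2 L')))⟩
  have uq : ∀ b s t y, y ∉ (dd (tv e .z) R).ev T v → y ∈ (tv e (.w b s)).ev T v →
      y ∈ (tv e (.w b t)).ev T v → s = t := by
    intro b s t y a h3 h4
    by_contra h
    have := dd_mem _ (hR (.inr (.inr (true, b, s, t)))) (sub _ h3) h3 a
    simp only [rule, h, if_false] at this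
    exact this.elim (fun c => c.2 h4) (dd_z _ a)
  let U := Finset.univ.filter fun s => ∃ L, (q L, w) ∈ (tv e (.w false s)).ev T v
  have hU := Finset.card_add_card_compl U
  rw [Fintype.card_fin] at hU
  rcases le_total l U.card with h | h
  · let L' : Big l := ⟨U, h⟩
    obtain ⟨s, -, t, h3, -, -, h4⟩ := key L' L'
    obtain ⟨L, h5⟩ := (Finset.mem_filter.1 h3).2
    obtain ⟨s', -, t', -, h6, h7, h8⟩ := key L L'
    exact h6 ((uq _ _ _ _ (n1 _ (sub _ (q1 L))) h7 h5).trans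
      (uq _ _ _ _ (n2 _ (sub _ (r2 L'))) h4 h8))
  · let L : Big l := ⟨Uᶜ, by omega⟩
    obtain ⟨s, h3, t, -, -, h4, -⟩ := key L L
    exact Finset.mem_compl.1 h3 (Finset.mem_filter.2 ⟨Finset.mem_univ _, L, h4⟩)

theorem fails (he : Injective e) {R : List (Tm × Tm)} (hR : ∀ r ∈ R, ∃ i, rule e i = r) :
    ¬ Holds (MA l) (eqn e (dd (tv e .z) R)) (top e) := by
  intro h
  let v : ℕ → Set {d : At l // d ≠ .z} := fun n => {d | e d.1 = n}
  have hv : ∀ d (x : {d : At l // d ≠ .z}),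
      (x ∈ show Set _ from (tv e d).val (MA l) v) ↔ x.1 = d := fun d x => he.eq_iff
  have hi : ∀ (s t : Tm) (x : {d : At l // d ≠ .z}),
      (x ∈ show Set _ from (s.imp t).val (MA l) v) ↔
        ((x ∈ show Set _ from s.val (MA l) v) → x ∈ show Set _ from t.val (MA l) v) :=
    fun s t x => imp_iff_not_or.symm
  have hc : ∀ (s t : Tm) (x : {d : At l // d ≠ .z}),
      (x ∈ show Set _ from (s.comp t).val (MA l) v) ↔ ∃ p q : {d : At l // d ≠ .z},
        (p ∈ show Set _ from s.val (MA l) v) ∧ (q ∈ show Set _ from t.val (MA l) v) ∧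
          C p.1 q.1 x.1 :=
    fun s t x => ⟨fun ⟨p, a, q, b, c⟩ => ⟨p, q, a, b, c⟩, fun ⟨p, q, a, b, c⟩ => ⟨p, a, q, b, c⟩⟩
  have hu : ∀ (L : List Tm) (r : Tm) (x : {d : At l // d ≠ .z}), r ∈ L →
      (x ∈ show Set _ from r.val (MA l) v) →
      x ∈ show Set _ from (L.foldr un (tv e .z)).val (MA l) v := by
    intro L r x h1 h2
    induction L with
    | nil => cases h1
    | cons a L ih =>
      simp only [List.foldr_cons, un, hi]
      rcases List.mem_cons.1 h1 with rfl | h1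
      · exact fun h => h h2
      · exact fun _ => ih h1
  have hr : ∀ i (x : {d : At l // d ≠ .z}), (x ∈ show Set _ from (rule e i).1.val (MA l) v) →
      x ∈ show Set _ from (rule e i).2.val (MA l) v := by
    rintro (⟨_ | _, L⟩ | ⟨L, L'⟩ | ⟨_ | _, b, s, t⟩) ⟨x, hx⟩
    · simp only [rule, hv, hc]
      rintro rfl
      exact ⟨⟨.g false, nofun⟩, ⟨.e false L, nofun⟩, rfl, rfl, .ge L⟩
    · simp only [rule, hv, hc]
      rintro rfl
      exact ⟨⟨.e true L, nofun⟩, ⟨.g true, nofun⟩, rfl, rfl, .eg L⟩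
    · simp only [rule, hv, hc]
      rintro ⟨⟨_, _⟩, ⟨_, _⟩, rfl, rfl, ⟨⟩⟩
      rename_i s t h1 h2 h3
      refine hu _ (tv e (.f s t)) _ ?_ ((hv _ _).2 rfl)
      simp only [List.mem_map, Finset.mem_toList, Finset.mem_filter, Finset.mem_product]
      exact ⟨(s, t), ⟨⟨‹_›, ‹_›⟩, ‹_›⟩, rfl⟩
    · cases b <;> simp only [rule, hv, hc] <;> rintro ⟨⟨_, _⟩, ⟨_, _⟩, rfl, rfl, ⟨⟩⟩ <;> rfl
    · by_cases h : s = t <;> simp only [rule, h, if_true, if_false, hv, hi]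
      · exact id
      · rintro rfl h'
        cases h'
        exact (h rfl).elim
  have hd : ∀ x : {d : At l // d ≠ .z}, ¬ x ∈ show Set _ from (dd (tv e .z) R).val (MA l) v := by
    intro x
    clear h
    induction R with
    | nil => exact fun h => x.2 ((hv _ _).1 h)
    | cons a R ih =>
      simp only [dd, List.foldr_cons, hi]
      obtain ⟨i, rfl⟩ := hR a List.mem_cons_self
      exact fun h => ih (fun r hr => hR r (List.mem_cons_of_mem _ hr)) (h (hr i x))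
  have := Set.ext_iff.1 (h v) ⟨.c, nofun⟩
  replace := this.2 ((hi _ _ _).2 id)
  replace := (hi _ _ _).1 this ((hc _ _ _).2 ⟨⟨.a false, nofun⟩, ⟨.a true, nofun⟩,
    (hv _ _).2 rfl, (hv _ _).2 rfl, .aa⟩)
  simp only [un, hi, hc, hd, false_and, and_false, exists_false] at this
  tauto

end alg

theorem result (E : Set (Tm × Tm)) (hE : E.Finite) (h : ∀ r ∈ E, Valid.{u} r.1 r.2) :
    ∃ M : Alg, (∀ r ∈ E, Holds M r.1 r.2) ∧ ∃ s t, Valid.{u} s t ∧ ¬ Holds M s t := by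
  obtain ⟨N, hN⟩ := (hE.image fun r => max r.1.bd r.2.bd).bddAbove
  let l := 2 * Fintype.card (Fin N → Prop) + 2
  obtain ⟨e, he⟩ := Countable.exists_injective_nat (At l)
  have hf := Set.finite_range (rule e)
  refine ⟨MA l, fun r hr => ?_, _, _, valid e (R := hf.toFinset.toList) ?_,
    fails e he ?_⟩
  · have := hN ⟨r, hr, rfl⟩
    exact holds le_rfl (le_of_max_le_left this) (le_of_max_le_right this) (h r hr)
  · intro i
    rw [Finset.mem_toList, Set.Finite.mem_toFinset]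
    exact ⟨i, rfl⟩
  · intro r hr
    rwa [Finset.mem_toList, Set.Finite.mem_toFinset] at hr

end Pool.Agent.Results.MP_634bde_lc.NotFinite
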